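import Mathlib


namespace Pool.Agent.H.MP_65bbe4_ag

open MvPowerSeries

section ring
variable {R : Type*} [CommRing R]

lemma pow_mem_span (X Y k u : R) (m : ℕ) (hu : IsUnit (u * (k - u * Y ^ (m + 2)))) :
    Y ^ (m + 9) ∈ Ideal.span {X ^ 2 + k * Y ^ 2 * X, X * Y ^ 3 + u * Y ^ (m + 7)} := by
  rw [← Ideal.unit_mul_mem_iff_mem _ hu, Ideal.mem_span_pair]
  exact ⟨-Y ^ 3, X + k * Y ^ 2 - u * Y ^ (m + 4), by ring⟩

lemma span_eq_of (f g f' g' E t A B C : R) (ht : IsUnit t) (h1 : f' = t ^ 2 * f + A * g + B * E)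
    (h2 : g' = t * g + C * E) (hE : E ∈ Ideal.span {f, g}) (hE' : E ∈ Ideal.span {f', g'}) :
    Ideal.span {f', g'} = Ideal.span {f, g} := by
  have hf : f ∈ Ideal.span {f, g} := Ideal.subset_span (by simp)
  have hg : g ∈ Ideal.span {f, g} := Ideal.subset_span (by simp)
  have hf' : f' ∈ Ideal.span {f', g'} := Ideal.subset_span (by simp)
  have hg' : g' ∈ Ideal.span {f', g'} := Ideal.subset_span (by simp)
  apply le_antisymm
  · rw [Ideal.span_le]
    rintro z (rfl | rfl)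
    · rw [SetLike.mem_coe, h1]
      exact add_mem (add_mem (Ideal.mul_mem_left _ _ hf) (Ideal.mul_mem_left _ _ hg))
        (Ideal.mul_mem_left _ _ hE)
    · rw [SetLike.mem_coe, h2]
      exact add_mem (Ideal.mul_mem_left _ _ hg) (Ideal.mul_mem_left _ _ hE)
  · have hg2 : g ∈ Ideal.span {f', g'} := by
      rw [← Ideal.unit_mul_mem_iff_mem _ ht]
      have : t * g = g' - C * E := by rw [h2]; ring
      rw [this]
      exact sub_mem hg' (Ideal.mul_mem_left _ _ hE')
    have hf2 : f ∈ Ideal.span {f', g'} := by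
      rw [← Ideal.unit_mul_mem_iff_mem _ (ht.pow 2)]
      have : t ^ 2 * f = f' - A * g - B * E := by rw [h1]; ring
      rw [this]
      exact sub_mem (sub_mem hf' (Ideal.mul_mem_left _ _ hg2)) (Ideal.mul_mem_left _ _ hE')
    rw [Ideal.span_le]
    rintro z (rfl | rfl)
    · exact hf2
    · exact hg2

lemma span_unit (f g s t : R) (hs : IsUnit s) (ht : IsUnit t) :
    Ideal.span {s * f, t * g} = Ideal.span {f, g} := by
  rw [Ideal.span_insert, Ideal.span_insert, Ideal.span_singleton_mul_left_unit hs,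
    Ideal.span_singleton_mul_left_unit ht]

lemma key (X Y k a t q : R) (m : ℕ) (hY : ∀ v z : R, IsUnit v → IsUnit (v + Y * z))
    (hk : IsUnit k) (ha : IsUnit a) (X' : R)
    (hX : X' = (1 + Y * (t - t ^ 2 * Y)) * X + -(t * a) * Y ^ (m + 5)) :
    Ideal.span {X' ^ 2 + k * Y ^ 2 * X',
        X' * Y ^ 3 + (a + 2 * t * a * Y + Y ^ 2 * q) * Y ^ (m + 7)} =
      Ideal.span {X ^ 2 + k * Y ^ 2 * X, X * Y ^ 3 + a * Y ^ (m + 7)} := by
  have hu : ∀ u : R, IsUnit u → IsUnit (u * (k - u * Y ^ (m + 2))) := by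
    intro u h
    refine h.mul ?_
    have : k - u * Y ^ (m + 2) = k + Y * (-(u * Y ^ (m + 1))) := by ring
    rw [this]
    exact hY _ _ hk
  refine span_eq_of _ _ _ _ (Y ^ (m + 9)) (1 + Y * (t - t ^ 2 * Y))
    (-(k * t) + k * (2 * t ^ 3 - t ^ 4 * Y) * Y ^ 2 +
      2 * (1 + Y * (t - t ^ 2 * Y)) * (-(t * a)) * Y ^ (m + 2))
    (-(a * k * (2 * t ^ 3 - t ^ 4 * Y)) -
      2 * (1 + Y * (t - t ^ 2 * Y)) * (-(t * a)) * a * Y ^ m + (t * a) ^ 2 * Y ^ (m + 1))
    (a * t ^ 2 + q) (hY _ _ isUnit_one) ?_ ?_ (pow_mem_span _ _ _ _ _ (hu _ ha))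
    (pow_mem_span _ _ _ _ _ (hu _ ?_))
  · rw [hX]; ring
  · rw [hX]; ring
  · have : a + 2 * t * a * Y + Y ^ 2 * q = a + Y * (2 * t * a + Y * q) := by ring
    rw [this]
    exact hY _ _ ha

end ring

variable {F : Type*} [Field F]

lemma exists_aut (a b : Fin 2 → MvPowerSeries (Fin 2) F)
    (ha : ∀ i, constantCoeff (a i) = 0) (hb : ∀ i, constantCoeff (b i) = 0)
    (hab : ∀ ψ : MvPowerSeries (Fin 2) F →ₐ[F] MvPowerSeries (Fin 2) F,
      (∀ i, ψ (X i) = a i) → ∀ i, ψ (b i) = X i)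
    (hba : ∀ ψ : MvPowerSeries (Fin 2) F →ₐ[F] MvPowerSeries (Fin 2) F,
      (∀ i, ψ (X i) = b i) → ∀ i, ψ (a i) = X i) :
    ∃ φ : MvPowerSeries (Fin 2) F ≃ₐ[F] MvPowerSeries (Fin 2) F, ∀ i, φ (X i) = a i := by
  have Ha : HasSubst a := hasSubst_of_constantCoeff_zero ha
  have Hb : HasSubst b := hasSubst_of_constantCoeff_zero hb
  have e1 : (fun s => subst a (b s)) = X := by
    funext s
    have := hab (substAlgHom Ha) (fun i => substAlgHom_X Ha i) s
    simpa using this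
  have e2 : (fun s => subst b (a s)) = X := by
    funext s
    have := hba (substAlgHom Hb) (fun i => substAlgHom_X Hb i) s
    simpa using this
  refine ⟨AlgEquiv.ofAlgHom (substAlgHom Ha) (substAlgHom Hb) ?_ ?_, ?_⟩
  · ext1 f
    simp [subst_comp_subst_apply Hb Ha, e1, subst_self]
  · ext1 f
    simp [subst_comp_subst_apply Ha Hb, e2, subst_self]
  · intro i
    simp [subst_X Ha]

lemma exists_shear (t s : MvPowerSeries (Fin 2) F) (ht : IsUnit t) (hs : constantCoeff s = 0)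
    (hfix : ∀ ψ : MvPowerSeries (Fin 2) F →ₐ[F] MvPowerSeries (Fin 2) F,
      ψ (X 1) = X 1 → ψ t = t ∧ ψ s = s) :
    ∃ φ : MvPowerSeries (Fin 2) F ≃ₐ[F] MvPowerSeries (Fin 2) F,
      φ (X 0) = t * X 0 + s ∧ φ (X 1) = X 1 := by
  obtain ⟨t', ht'⟩ := ht.exists_right_inv
  have hfix' : ∀ ψ : MvPowerSeries (Fin 2) F →ₐ[F] MvPowerSeries (Fin 2) F,
      ψ (X 1) = X 1 → ψ t' = t' := by
    intro ψ h
    have h1 : t * ψ t' = 1 := by
      have := congrArg ψ ht'
      rwa [map_mul, map_one, (hfix ψ h).1] at this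
    linear_combination t' * h1 - ψ t' * ht'
  obtain ⟨φ, hφ⟩ := exists_aut ![t * X 0 + s, X 1] ![t' * (X 0 - s), X 1]
    (by intro i; fin_cases i <;> simp [hs]) (by intro i; fin_cases i <;> simp [hs])
    (by
      intro ψ h i
      have h0 := h 0
      have h1 := h 1
      simp only [Matrix.cons_val_zero, Matrix.cons_val_one] at h0 h1
      fin_cases i
      · simp only [Fin.zero_eta, Matrix.cons_val_zero, map_mul, map_sub, h0, hfix' ψ h1,
          (hfix ψ h1).2]
        linear_combination (X 0) * ht'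
      · simpa using h1)
    (by
      intro ψ h i
      have h0 := h 0
      have h1 := h 1
      simp only [Matrix.cons_val_zero, Matrix.cons_val_one] at h0 h1
      fin_cases i
      · simp only [Fin.zero_eta, Matrix.cons_val_zero, map_mul, map_add, h0, (hfix ψ h1).1,
          (hfix ψ h1).2]
        linear_combination (X 0 - s) * ht'
      · simpa using h1)
  exact ⟨φ, hφ 0, hφ 1⟩

lemma exists_scale (c : F) (hc : c ≠ 0) :
    ∃ φ : MvPowerSeries (Fin 2) F ≃ₐ[F] MvPowerSeries (Fin 2) F,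
      φ (X 0) = C c ^ 2 * X 0 ∧ φ (X 1) = C c * X 1 := by
  have hC : ∀ ψ : MvPowerSeries (Fin 2) F →ₐ[F] MvPowerSeries (Fin 2) F, ∀ z : F,
      ψ (C z) = C z := fun ψ z => ψ.commutes z
  have h1 : (C c : MvPowerSeries (Fin 2) F) * C c⁻¹ = 1 := by
    rw [← map_mul, mul_inv_cancel₀ hc, map_one]
  obtain ⟨φ, hφ⟩ := exists_aut (F := F) ![C c ^ 2 * X 0, C c * X 1] ![C c⁻¹ ^ 2 * X 0, C c⁻¹ * X 1]
    (by intro i; fin_cases i <;> simp) (by intro i; fin_cases i <;> simp)
    (by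
      intro ψ h i
      have h0 := h 0
      have h1' := h 1
      simp only [Matrix.cons_val_zero, Matrix.cons_val_one] at h0 h1'
      fin_cases i
      · simp only [Fin.zero_eta, Matrix.cons_val_zero, map_mul, map_pow, h0, hC]
        linear_combination (X 0) * (C c * C c⁻¹ + 1) * h1
      · simp only [Fin.mk_one, Matrix.cons_val_one, Matrix.cons_val_zero, map_mul, h1', hC]
        linear_combination (X 1) * h1)
    (by
      intro ψ h i
      have h0 := h 0
      have h1' := h 1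
      simp only [Matrix.cons_val_zero, Matrix.cons_val_one] at h0 h1'
      fin_cases i
      · simp only [Fin.zero_eta, Matrix.cons_val_zero, map_mul, map_pow, h0, hC]
        linear_combination (X 0) * (C c * C c⁻¹ + 1) * h1
      · simp only [Fin.mk_one, Matrix.cons_val_one, Matrix.cons_val_zero, map_mul, h1', hC]
        linear_combination (X 1) * h1)
  exact ⟨φ, hφ 0, hφ 1⟩

end Pool.Agent.H.MP_65bbe4_ag
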