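import Pool.Agent.H.MP_65bbe4_ag.Basic


namespace Pool.Agent.H.MP_65bbe4_ag

open MvPowerSeries

variable {F : Type*} [Field F]

/-- ideal form of contact equivalence -/
def Rel (f1 f2 g1 g2 : MvPowerSeries (Fin 2) F) : Prop :=
  ∃ φ : MvPowerSeries (Fin 2) F ≃ₐ[F] MvPowerSeries (Fin 2) F,
    Ideal.span {φ f1, φ f2} = Ideal.span {g1, g2}

lemma map_span (φ : MvPowerSeries (Fin 2) F ≃ₐ[F] MvPowerSeries (Fin 2) F)
    {a b c d : MvPowerSeries (Fin 2) F} (h : Ideal.span {a, b} = Ideal.span {c, d}) :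
    Ideal.span {φ a, φ b} = Ideal.span {φ c, φ d} := by
  have := congrArg (Ideal.map φ) h
  simpa only [Ideal.map_span, Set.image_insert_eq, Set.image_singleton] using this

lemma Rel.symm {f1 f2 g1 g2 : MvPowerSeries (Fin 2) F} (h : Rel f1 f2 g1 g2) :
    Rel g1 g2 f1 f2 := by
  obtain ⟨φ, h⟩ := h
  refine ⟨φ.symm, ?_⟩
  have := map_span φ.symm h
  simpa using this.symm

lemma Rel.trans {f1 f2 g1 g2 h1 h2 : MvPowerSeries (Fin 2) F} (h : Rel f1 f2 g1 g2)
    (h' : Rel g1 g2 h1 h2) : Rel f1 f2 h1 h2 := by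
  obtain ⟨φ, h⟩ := h
  obtain ⟨ψ, h'⟩ := h'
  refine ⟨φ.trans ψ, ?_⟩
  have := map_span ψ h
  simpa using this.trans h'

lemma hC (φ : MvPowerSeries (Fin 2) F ≃ₐ[F] MvPowerSeries (Fin 2) F) (z : F) :
    φ (C z) = C z := φ.commutes z

lemma hC' (φ : MvPowerSeries (Fin 2) F →ₐ[F] MvPowerSeries (Fin 2) F) (z : F) :
    φ (C z) = C z := φ.commutes z

lemma unit_add (v z : MvPowerSeries (Fin 2) F) (h : IsUnit v) : IsUnit (v + X 1 * z) := by
  rw [isUnit_iff_constantCoeff] at h ⊢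
  simpa using h

lemma unit_C {z : F} (h : z ≠ 0) : IsUnit (C z : MvPowerSeries (Fin 2) F) :=
  (IsUnit.mk0 z h).map C

/-- first generator -/
noncomputable abbrev f1 (F : Type*) [Field F] : MvPowerSeries (Fin 2) F := X 0 ^ 2 + X 1 ^ 4

/-- second generator -/
noncomputable abbrev f2 (p : ℕ) (l a b : F) : MvPowerSeries (Fin 2) F :=
  X 1 ^ 5 + C l * X 0 * X 1 ^ 3 + C a * X 0 * X 1 ^ (p + 3) + X 0 * X 1 ^ (p + 4) +
    C b * X 0 * X 1 ^ (2 * p + 3)

lemma shear (p : ℕ) (l a b : F) (hl : l ^ 2 = -1) :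
    ∃ φ : MvPowerSeries (Fin 2) F ≃ₐ[F] MvPowerSeries (Fin 2) F,
      φ (f1 F) = X 0 ^ 2 + 2 * C l * X 1 ^ 2 * X 0 ∧
      φ (f2 p l a b) = (C l + X 1 ^ p * (C a + X 1 + C b * X 1 ^ p)) * X 0 * X 1 ^ 3 +
        C l * (C a + X 1 + C b * X 1 ^ p) * X 1 ^ (p + 5) := by
  have hl' : (C l : MvPowerSeries (Fin 2) F) ^ 2 = -1 := by
    rw [← map_pow, hl]; simp
  obtain ⟨φ, h0, h1⟩ := exists_shear (F := F) 1 (C l * X 1 ^ 2) isUnit_one (by simp)
    (by intro ψ h; simp [h, hC'])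
  refine ⟨φ, ?_, ?_⟩
  · simp only [f1, map_add, map_pow, h0, h1]
    linear_combination (X 1 ^ 4) * hl'
  · simp only [f2, map_add, map_mul, map_pow, h0, h1, hC]
    linear_combination (X 1 ^ 5) * hl'

lemma scale [IsAlgClosed F] (p : ℕ) (hp : 0 < p) (k a : F) (ha : a ≠ 0) :
    Rel (X 0 ^ 2 + C k * X 1 ^ 2 * X 0) (X 0 * X 1 ^ 3 + C a * X 1 ^ (p + 5))
      (X 0 ^ 2 + C k * X 1 ^ 2 * X 0) (X 0 * X 1 ^ 3 + X 1 ^ (p + 5)) := by
  obtain ⟨c, hc⟩ := IsAlgClosed.exists_pow_nat_eq a⁻¹ hp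
  have hc0 : c ≠ 0 := by
    rintro rfl
    rw [zero_pow hp.ne'] at hc
    exact inv_ne_zero ha hc.symm
  have h : (C c : MvPowerSeries (Fin 2) F) ^ p * C a = 1 := by
    rw [← map_pow, ← map_mul, hc, inv_mul_cancel₀ ha, map_one]
  obtain ⟨φ, h0, h1⟩ := exists_scale c hc0
  refine ⟨φ, ?_⟩
  rw [← span_unit (X 0 ^ 2 + C k * X 1 ^ 2 * X 0) (X 0 * X 1 ^ 3 + X 1 ^ (p + 5)) (C c ^ 4)
    (C c ^ 5) ((unit_C hc0).pow 4) ((unit_C hc0).pow 5)]
  congr 2
  · simp only [map_add, map_mul, map_pow, h0, h1, hC]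
    ring
  · simp only [map_add, map_mul, map_pow, h0, h1, hC]
    congr 1
    linear_combination (C c ^ 5 * X 1 ^ (p + 5)) * h

lemma normal [IsAlgClosed F] (p : ℕ) (hp : 2 ≤ p) (l a b : F) (hl : l ^ 2 = -1) (ha : a ≠ 0) :
    Rel (f1 F) (f2 p l a b)
      (X 0 ^ 2 + C (2 * l) * X 1 ^ 2 * X 0) (X 0 * X 1 ^ 3 + X 1 ^ (p + 5)) := by
  have hl0 : l ≠ 0 := by
    rintro rfl
    simp at hl
  obtain ⟨m, rfl⟩ : ∃ m, p = m + 2 := ⟨p - 2, by omega⟩
  obtain ⟨φ, e1, e2⟩ := shear (m + 2) l a b hl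
  set ε : MvPowerSeries (Fin 2) F := C a + X 1 + C b * X 1 ^ (m + 2) with hε
  have hεu : IsUnit ε := by
    have : ε = C a + X 1 * (1 + C b * X 1 ^ (m + 1)) := by rw [hε]; ring
    rw [this]
    exact unit_add _ _ (unit_C ha)
  have hw : IsUnit (C l + X 1 ^ (m + 2) * ε) := by
    have : C l + X 1 ^ (m + 2) * ε = C l + X 1 * (X 1 ^ (m + 1) * ε) := by ring
    rw [this]
    exact unit_add _ _ (unit_C hl0)
  obtain ⟨w', hw'⟩ := hw.exists_right_inv
  have h2 : (C (2 * l) : MvPowerSeries (Fin 2) F) = 2 * C l := by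
    rw [map_mul, map_ofNat]
  by_cases h20 : (2 : F) = 0
  · have hk : (2 * C l : MvPowerSeries (Fin 2) F) = 0 := by
      rw [← h2, h20, zero_mul, map_zero]
    have hεfix : ∀ ψ : MvPowerSeries (Fin 2) F →ₐ[F] MvPowerSeries (Fin 2) F,
        ψ (X 1) = X 1 → ψ ε = ε := by
      intro ψ h
      simp [hε, h, hC']
    have hw'u : IsUnit w' := IsUnit.of_mul_eq_one_right _ hw'
    obtain ⟨ψ, p0, p1⟩ := exists_shear (F := F) (C l * ε * w') 0
      (((unit_C hl0).mul hεu).mul hw'u) (by simp) (by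
        intro ψ h
        have h1 : (C l + X 1 ^ (m + 2) * ε) * ψ w' = 1 := by
          have := congrArg ψ hw'
          simpa [h, hC', hεfix ψ h] using this
        have h3 : ψ w' = w' := by linear_combination w' * h1 - ψ w' * hw'
        simp [h3, hC', hεfix ψ h])
    refine ⟨φ.trans ψ, ?_⟩
    rw [← span_unit (X 0 ^ 2 + C (2 * l) * X 1 ^ 2 * X 0)
      (X 0 * X 1 ^ 3 + X 1 ^ (m + 2 + 5)) ((C l * ε * w') ^ 2) (C l * ε)
      ((((unit_C hl0).mul hεu).mul hw'u).pow 2) ((unit_C hl0).mul hεu)]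
    have hψε : ψ ε = ε := hεfix ψ p1
    congr 2
    · rw [AlgEquiv.trans_apply, e1, h2, hk]
      simp only [map_add, map_mul, map_pow, p0, p1, map_zero]
      ring
    · rw [AlgEquiv.trans_apply, e2]
      simp only [map_add, map_mul, map_pow, p0, p1, hC, hψε]
      congr 1
      linear_combination (C l * ε * X 0 * X 1 ^ 3) * hw'
  · refine Rel.trans ?_ (scale (m + 2) (by omega) (2 * l) a ha)
    have h2a : (2 * a) ≠ 0 := mul_ne_zero h20 ha
    have ht : (2 * C (2 * a)⁻¹ * C a : MvPowerSeries (Fin 2) F) = 1 := by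
      have : (2 * C (2 * a)⁻¹ * C a : MvPowerSeries (Fin 2) F) = C ((2 * a)⁻¹ * (2 * a)) := by
        rw [map_mul, map_mul, map_ofNat]; ring
      rw [this, inv_mul_cancel₀ h2a, map_one]
    obtain ⟨ψ, p0, p1⟩ := exists_shear (F := F)
      (1 + X 1 * (C (2 * a)⁻¹ - C (2 * a)⁻¹ ^ 2 * X 1)) (-(C (2 * a)⁻¹ * C a) * X 1 ^ (m + 5))
      (unit_add _ _ isUnit_one) (by simp) (by intro ψ h; simp [h, hC'])
    refine ⟨φ.trans ψ, ?_⟩
    have e3 : Ideal.span {φ (f1 F), φ (f2 (m + 2) l a b)} =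
        Ideal.span {X 0 ^ 2 + C (2 * l) * X 1 ^ 2 * X 0, X 0 * X 1 ^ 3 +
          (C a + X 1 + X 1 ^ 2 * (X 1 ^ m * (C l * C b - ε * (C a + X 1)) * w')) *
            X 1 ^ (m + 7)} := by
      rw [← span_unit (X 0 ^ 2 + C (2 * l) * X 1 ^ 2 * X 0) _ 1 _ isUnit_one hw, e1, e2, h2]
      congr 2
      · ring
      · congr 1
        linear_combination (-(X 1 ^ (m + 7) * X 1 ^ (m + 2) * (C l * C b - ε * (C a + X 1)))) * hw'
          + C l * X 1 ^ (m + 7) * hε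
    rw [AlgEquiv.trans_apply, AlgEquiv.trans_apply, map_span ψ e3]
    rw [← key (X 0) (X 1) (C (2 * l)) (C a) (C (2 * a)⁻¹)
      (ψ (X 1 ^ m * (C l * C b - ε * (C a + X 1)) * w')) m unit_add
      (unit_C (mul_ne_zero h20 hl0)) (unit_C ha) _ p0]
    congr 2
    · simp only [map_add, map_mul, map_pow, p1, hC]
    · rw [ht, map_add, map_mul, map_mul, map_add, map_add, map_mul, map_pow, map_pow, map_pow,
        p1, hC, one_mul]

lemma rel [IsAlgClosed F] (p : ℕ) (hp : 2 ≤ p) (l a b c d : F) (hl : l ^ 2 = -1) (ha : a ≠ 0)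
    (hc : c ≠ 0) : Rel (f1 F) (f2 p l a b) (f1 F) (f2 p l c d) :=
  (normal p hp l a b hl ha).trans (normal p hp l c d hl hc).symm

lemma X_ne (i : Fin 2) : (X i : MvPowerSeries (Fin 2) F) ≠ 0 := by
  intro h
  have := congrArg (coeff (Finsupp.single i 1)) h
  simp [coeff_X] at this

lemma minimal (p : ℕ) (l a b : F) (hl : l ^ 2 = -1) (ha : a ≠ 0)
    (u v : MvPowerSeries (Fin 2) F)
    (h : u * f1 F + v * f2 p l a b = 0) : ¬ IsUnit u ∧ ¬ IsUnit v := by
  have hl0 : l ≠ 0 := by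
    rintro rfl
    simp at hl
  constructor
  · intro hu
    have H : HasSubst (![X 0, 0] : Fin 2 → MvPowerSeries (Fin 2) F) := HasSubst.X_zero
    have h0 : substAlgHom (R := F) H (X 0) = X 0 := substAlgHom_X H 0
    have h1 : substAlgHom (R := F) H (X 1) = 0 := substAlgHom_X H 1
    generalize substAlgHom (R := F) H = ψ at h0 h1
    have := congrArg ψ h
    simp only [f1, f2, map_add, map_mul, map_pow, h0, h1, map_zero] at this
    have h3 : ψ u * X 0 ^ 2 = 0 := by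
      rw [← this]
      simp
    rw [(hu.map _).mul_right_eq_zero] at h3
    exact X_ne _ (pow_eq_zero_iff (by norm_num) |>.1 h3)
  · intro hv
    obtain ⟨φ, e1, e2⟩ := shear p l a b hl
    have H : HasSubst (![0, X 1] : Fin 2 → MvPowerSeries (Fin 2) F) := HasSubst.zero_X
    have h0 : substAlgHom (R := F) H (X 0) = 0 := substAlgHom_X H 0
    have h1 : substAlgHom (R := F) H (X 1) = X 1 := substAlgHom_X H 1
    generalize substAlgHom (R := F) H = ψ at h0 h1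
    have h2 := congrArg φ h
    rw [map_add, map_mul, map_mul, e1, e2, map_zero] at h2
    have := congrArg ψ h2
    simp only [map_add, map_mul, map_pow, h0, h1, map_zero, hC'] at this
    have h3 : ψ (φ v) *
        (C l * ((C a + X 1 + C b * X 1 ^ p) * X 1 ^ (p + 5))) = 0 := by
      rw [← this]
      ring
    rw [((hv.map φ).map _).mul_right_eq_zero, (unit_C hl0).mul_right_eq_zero] at h3
    rcases mul_eq_zero.1 h3 with h4 | h4
    · have h5 := congrArg (coeff (Finsupp.single (1 : Fin 2) 1)) h4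
      have h6 := congrArg constantCoeff h4
      rcases Nat.eq_zero_or_pos p with rfl | hp
      · simp [coeff_X, coeff_C, coeff_one] at h5
      · simp [hp.ne', ha] at h6
    · exact X_ne _ (pow_eq_zero_iff (by omega) |>.1 h4)

lemma exists_GL {R : Type*} [CommRing R] [IsLocalRing R] (f1 f2 g1 g2 : R)
    (h : Ideal.span {f1, f2} = Ideal.span {g1, g2})
    (hm : ∀ u v : R, u * g1 + v * g2 = 0 → ¬ IsUnit u ∧ ¬ IsUnit v) :
    ∃ U : GL (Fin 2) R, ![g1, g2] = (U : Matrix (Fin 2) (Fin 2) R).mulVec ![f1, f2] := by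
  have m1 : g1 ∈ Ideal.span {f1, f2} := h ▸ Ideal.subset_span (by simp)
  have m2 : g2 ∈ Ideal.span {f1, f2} := h ▸ Ideal.subset_span (by simp)
  have m3 : f1 ∈ Ideal.span {g1, g2} := h ▸ Ideal.subset_span (by simp)
  have m4 : f2 ∈ Ideal.span {g1, g2} := h ▸ Ideal.subset_span (by simp)
  obtain ⟨a, b, e1⟩ := Ideal.mem_span_pair.1 m1
  obtain ⟨c, d, e2⟩ := Ideal.mem_span_pair.1 m2
  obtain ⟨a', b', e3⟩ := Ideal.mem_span_pair.1 m3
  obtain ⟨c', d', e4⟩ := Ideal.mem_span_pair.1 m4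
  have k1 := hm (a * a' + b * c' - 1) (a * b' + b * d')
    (by linear_combination e1 + a * e3 + b * e4)
  have k2 := hm (c * a' + d * c') (c * b' + d * d' - 1)
    (by linear_combination e2 + c * e3 + d * e4)
  have hdet : IsUnit (a * d - b * c) := by
    have hmem : 1 - (a * d - b * c) * (a' * d' - b' * c') ∈ IsLocalRing.maximalIdeal R := by
      have : 1 - (a * d - b * c) * (a' * d' - b' * c') =
          -(c * b' + d * d') * (a * a' + b * c' - 1) - (c * b' + d * d' - 1) +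
            (c * a' + d * c') * (a * b' + b * d') := by ring
      rw [this]
      exact add_mem (sub_mem (Ideal.mul_mem_left _ _ k1.1) k2.2) (Ideal.mul_mem_left _ _ k1.2)
    have := IsLocalRing.isUnit_one_sub_self_of_mem_nonunits _ hmem
    rw [sub_sub_cancel] at this
    exact isUnit_of_mul_isUnit_left this
  have hU : IsUnit (!![a, b; c, d] : Matrix (Fin 2) (Fin 2) R) := by
    rw [Matrix.isUnit_iff_isUnit_det, Matrix.det_fin_two_of]
    exact hdet
  refine ⟨hU.unit, ?_⟩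
  rw [IsUnit.unit_spec]
  ext i
  fin_cases i
  · simp [Matrix.mulVec, dotProduct, Fin.sum_univ_two, e1]
  · simp [Matrix.mulVec, dotProduct, Fin.sum_univ_two, e2]

theorem main [IsAlgClosed F] (p : ℕ) (hp : 2 ≤ p) (l a b c d : F) (hl : l ^ 2 = -1) (ha : a ≠ 0)
    (hc : c ≠ 0) : ∃ (U : GL (Fin 2) (MvPowerSeries (Fin 2) F))
      (φ : MvPowerSeries (Fin 2) F ≃ₐ[F] MvPowerSeries (Fin 2) F),
      ![f1 F, f2 p l c d] = (U : Matrix (Fin 2) (Fin 2) (MvPowerSeries (Fin 2) F)).mulVec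
        ![φ (f1 F), φ (f2 p l a b)] := by
  obtain ⟨φ, h⟩ := rel p hp l a b c d hl ha hc
  obtain ⟨U, hU⟩ := exists_GL _ _ _ _ h (minimal p l c d hl hc)
  exact ⟨U, φ, hU⟩

end Pool.Agent.H.MP_65bbe4_ag
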